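import Pool.Agent.TH882.R9

/-!
# Systems of linear forms `x + h` and of polynomials `g_j + k_j` of arbitrary degrees, with consecutive
primes in exact patterns

Lower bounds, correct up to a power of the logarithm, for the number of simultaneous prime values of
systems which contain linear forms `x + h` and polynomials `g_j + k_j` of arbitrary degrees, for
almost all vectors of the constant terms `k_j` (up to any multiple of `x ^ deg g_j`).  For every `m`
there are `K` and `c > 0`, independent of the polynomials, such that for every set `A` of at least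
`K` natural numbers at least `c * binom (|A|, m)` of the subsets `H` of `A` with `m` elements can be
used, and moreover the primes `n + h`, `h ∈ H`, are consecutive.

The library theorem `Pool.Agent.TH882.RQ.finQ` (a starting file) is used.
-/

set_option autoImplicit false

open Finset Filter Topology Polynomial

namespace Pool.Agent.Results.MP_51e72e_nt.ConsecutivePrimePatterns

/-- All `n + h`, `h ∈ H`, are prime, and no other integer between `n + min H` and `n + max H` is
prime. -/
def Consecutive (H : Finset ℕ) (n : ℕ) : Prop := (∀ h ∈ H, (n + h).Prime) ∧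
  ∀ w, (∃ h ∈ H, h ≤ w) → (∃ h ∈ H, w ≤ h) → (n + w).Prime → w ∈ H

/-- The number of the integers `1 ≤ n ≤ x` for which the `n + h`, `h ∈ H`, are consecutive primes and
all the `g j (n) + k j` are (positive and) prime. -/
noncomputable def count {r : ℕ} (g : Fin r → ℤ[X]) (k : Fin r → ℕ) (H : Finset ℕ) (x : ℕ) : ℕ :=
  {n : ℕ | (1 ≤ n ∧ n ≤ x) ∧ Consecutive H n ∧
    ∀ j, 0 < (g j).eval (n : ℤ) + k j ∧ ((g j).eval (n : ℤ) + k j).natAbs.Prime}.ncard

/-- The product of the linear forms `n + a`, `a ∈ A`, and of the polynomials `g j (n) + k j` has no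
fixed prime divisor. -/
def NoFixedDivisor {r : ℕ} (g : Fin r → ℤ[X]) (k : Fin r → ℕ) (A : Finset ℤ) : Prop :=
  ∀ l : ℕ, l.Prime → ∃ n : ℤ, ¬ (l : ℤ) ∣ (∏ a ∈ A, (n + a)) * ∏ j, ((g j).eval n + k j)

open Classical in
/-- The subsets `H` of `A` with `m` elements for which the count is at least `x / (log x) ^ D`. -/
noncomputable def patterns {r : ℕ} (g : Fin r → ℤ[X]) (k : Fin r → ℕ) (A : Finset ℕ)
    (m D x : ℕ) : Finset (Finset ℕ) :=
  (A.powersetCard m).filter fun H => (x : ℝ) / Real.log x ^ D ≤ (count g k H x : ℝ)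

/-- The vectors `k` with `1 ≤ k j ≤ κ x ^ deg (g j)` without a fixed prime divisor for which less than
`c * binom (|A|, m)` subsets `H` of `A` with `m` elements are in `patterns`. -/
def exceptions {r : ℕ} (g : Fin r → ℤ[X]) (A : Finset ℕ) (m : ℕ) (c : ℝ) (D κ x : ℕ) :
    Set (Fin r → ℕ) :=
  {k | (∀ j, 1 ≤ k j ∧ k j ≤ κ * x ^ (g j).natDegree) ∧
    NoFixedDivisor g k (A.image (fun a : ℕ => (a : ℤ))) ∧
    ((patterns g k A m D x).card : ℝ) < c * (A.card.choose m : ℕ)}

/-! ### The shifted polynomials -/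

/-- the polynomial `g (n + 1)` -/
noncomputable def sh (p : ℤ[X]) : ℤ[X] := p.comp (X + C 1)

lemma sh_eval (p : ℤ[X]) (n : ℤ) : (sh p).eval n = p.eval (n + 1) := by
  unfold sh
  rw [eval_comp, eval_add, eval_X, eval_C]

lemma sh_deg (p : ℤ[X]) : (sh p).natDegree = p.natDegree := by
  unfold sh
  rw [natDegree_comp, natDegree_X_add_C, mul_one]

lemma sh_lead (p : ℤ[X]) : (sh p).leadingCoeff = p.leadingCoeff := by
  unfold sh
  rw [leadingCoeff_comp (by rw [natDegree_X_add_C]; exact one_ne_zero), leadingCoeff_X_add_C,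
    one_pow, mul_one]

/-! ### Sets of patterns that meet all large sets -/

lemma choose_filter (A H : Finset ℕ) (K : ℕ) (hH : H ⊆ A) :
    ((A.powersetCard K).filter (fun B => H ⊆ B)).card ≤
      (A.card - H.card).choose (K - H.card) := by
  classical
  rw [← card_sdiff_of_subset hH, ← card_powersetCard]
  refine card_le_card_of_injOn (fun B => B \ H) ?_ ?_
  · intro B hB
    rw [mem_coe, mem_filter, mem_powersetCard] at hB
    rw [mem_coe, mem_powersetCard, card_sdiff_of_subset hB.2, hB.1.2]
    exact ⟨sdiff_subset_sdiff hB.1.1 Subset.rfl, rfl⟩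
  · intro B hB B' hB' h
    rw [mem_coe, mem_filter] at hB hB'
    simp only at h
    rw [← sdiff_union_of_subset hB.2, h, sdiff_union_of_subset hB'.2]

lemma supersaturation (A : Finset ℕ) (P : Finset (Finset ℕ)) (m K : ℕ) (hmK : m ≤ K)
    (hK : K ≤ A.card) (hP : P ⊆ A.powersetCard m)
    (h : ∀ B ∈ A.powersetCard K, ∃ H ∈ P, H ⊆ B) :
    1 / ((K.choose m : ℕ) : ℝ) * (A.card.choose m : ℕ) ≤ P.card := by
  classical
  choose! f hf using h
  have h1 : (A.powersetCard K).card ≤ (A.card - m).choose (K - m) * P.card := by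
    refine card_le_mul_card_image_of_maps_to (f := f) (fun B hB => (hf B hB).1) _ ?_
    intro H hH
    have hH' := mem_powersetCard.1 (hP hH)
    have h2 := choose_filter A H K hH'.1
    rw [hH'.2] at h2
    refine le_trans (card_le_card ?_) h2
    intro B hB
    rw [mem_filter] at hB ⊢
    refine ⟨hB.1, ?_⟩
    rw [← hB.2]
    exact (hf B hB.1).2
  rw [card_powersetCard] at h1
  have h2 : A.card.choose K * K.choose m = A.card.choose m * (A.card - m).choose (K - m) :=
    Nat.choose_mul hmK
  have h3 : 0 < (A.card - m).choose (K - m) := Nat.choose_pos (by omega)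
  have h4 : A.card.choose m ≤ K.choose m * P.card := by
    apply Nat.le_of_mul_le_mul_right _ h3
    calc A.card.choose m * (A.card - m).choose (K - m) = A.card.choose K * K.choose m := h2.symm
      _ ≤ ((A.card - m).choose (K - m) * P.card) * K.choose m := Nat.mul_le_mul_right _ h1
      _ = K.choose m * P.card * (A.card - m).choose (K - m) := by ring
  have h5 : (0 : ℝ) < ((K.choose m : ℕ) : ℝ) := by exact_mod_cast Nat.choose_pos hmK
  rw [one_div, inv_mul_le_iff₀ h5]
  exact_mod_cast h4

/-! ### The theorem -/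

lemma loc_of {r : ℕ} (g : Fin r → ℤ[X]) (k : Fin r → ℕ) (A B : Finset ℕ) (hB : B ⊆ A)
    (h : NoFixedDivisor g k (A.image (fun a : ℕ => (a : ℤ)))) :
    Pool.Agent.TH882.RQ.LocQ (fun j => sh (g j)) (B.image (· + 1)) (fun j => (k j : ℤ)) := by
  classical
  intro l hl
  obtain ⟨n, hn⟩ := h l hl
  refine ⟨n - 1, ?_, ?_⟩
  · intro u hu hd
    rw [mem_image] at hu
    obtain ⟨a, ha, rfl⟩ := hu
    apply hn
    apply Dvd.dvd.mul_right
    refine dvd_trans ?_ (Finset.dvd_prod_of_mem (fun a : ℤ => n + a)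
      (mem_image_of_mem (fun a : ℕ => (a : ℤ)) (hB ha)))
    have e : n - 1 + ((a + 1 : ℕ) : ℤ) = n + a := by
      push_cast
      ring
    rwa [e] at hd
  · intro j hd
    apply hn
    apply Dvd.dvd.mul_left
    refine dvd_trans ?_ (Finset.dvd_prod_of_mem (fun j => (g j).eval n + (k j : ℤ)) (mem_univ j))
    have e : (k j : ℤ) + 1 * (sh (g j)).eval (n - 1) = (g j).eval n + k j := by
      rw [sh_eval, sub_add_cancel]
      ring
    rwa [e] at hd

lemma toNat_prime {z : ℤ} (h : z.toNat.Prime) : 0 < z ∧ z.natAbs.Prime := by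
  have h1 := h.pos
  have h2 : z.natAbs = z.toNat := by omega
  exact ⟨by omega, by rwa [h2]⟩

lemma count_ge {r : ℕ} (g : Fin r → ℤ[X]) (k : Fin r → ℕ) (B H' : Finset ℕ) (x : ℕ)
    (hH' : H' ⊆ B.image (· + 1)) :
    (Pool.Agent.TH882.RQ.CQ (fun j => sh (g j)) H' (fun j => (k j : ℤ)) x).card ≤
      count g k (B.filter (fun a => a + 1 ∈ H')) x := by
  classical
  have hinj1 : Function.Injective (fun a : ℕ => a + 1) := fun a b hab => by simpa using hab
  unfold count
  rw [← card_image_of_injective _ hinj1, ← Set.ncard_coe_finset]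
  apply Set.ncard_le_ncard
  · intro n hn
    rw [mem_coe, mem_image] at hn
    obtain ⟨n', hn', rfl⟩ := hn
    unfold Pool.Agent.TH882.RQ.CQ at hn'
    rw [mem_filter, mem_Ico] at hn'
    obtain ⟨e1, ⟨e2, e3⟩, e4⟩ := hn'
    rw [Set.mem_ofPred_eq]
    refine ⟨by omega, ⟨?_, ?_⟩, ?_⟩
    · intro a ha
      rw [mem_filter] at ha
      have e6 : n' + 1 + a = n' + (a + 1) := by ring
      rw [e6]
      exact e2 _ ha.2
    · rintro w ⟨a, ha, haw⟩ ⟨c, hc, hwc⟩ hp
      rw [mem_filter] at ha hc
      have e6 : n' + (w + 1) = n' + 1 + w := by ring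
      have e5 := e3 (w + 1) ⟨a + 1, ha.2, by omega⟩ ⟨c + 1, hc.2, by omega⟩ (by rw [e6]; exact hp)
      have e7 := hH' e5
      rw [mem_image] at e7
      obtain ⟨w', hw', he⟩ := e7
      have e8 : w' = w := by simpa using he
      rw [mem_filter]
      exact ⟨e8 ▸ hw', e5⟩
    · intro j
      have e5 := toNat_prime (e4 j)
      have e6 : (k j : ℤ) + 1 * (sh (g j)).eval (n' : ℤ) =
          (g j).eval ((n' + 1 : ℕ) : ℤ) + k j := by
        rw [sh_eval]
        push_cast
        ring
      rwa [e6] at e5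
  · apply (finite_toSet (Icc 1 x)).subset
    intro n hn
    rw [Set.mem_ofPred_eq] at hn
    rw [mem_coe, mem_Icc]
    exact hn.1

theorem part_one (m : ℕ) : ∃ K : ℕ, ∃ c : ℝ, 0 < c ∧ ∀ (r : ℕ) (g : Fin r → ℤ[X]),
    (∀ j, 1 ≤ (g j).natDegree) → (∀ j, 0 < (g j).leadingCoeff) → ∀ A : Finset ℕ, K ≤ A.card →
    ∃ D : ℕ, ∀ κ : ℕ, Tendsto (fun x : ℕ => ((exceptions g A m c D κ x).ncard : ℝ) /
      ∏ j, (x : ℝ) ^ (g j).natDegree) atTop (𝓝 0) := by
  classical
  obtain ⟨K₀, hK₀, hfin⟩ := Pool.Agent.TH882.RQ.finQ m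
  set K : ℕ := 4 * (m + 1) * K₀ with hK
  have hmK : m ≤ K := by
    rw [hK]
    nlinarith
  refine ⟨K, 1 / ((K.choose m : ℕ) : ℝ), ?_, ?_⟩
  · apply one_div_pos.2
    exact_mod_cast Nat.choose_pos hmK
  intro r g hd hl A hA
  have hinj1 : Function.Injective (fun a : ℕ => a + 1) := fun a b hab => by simpa using hab
  have h0 : ∀ B : Finset ℕ, ∃ D : ℕ, B ∈ A.powersetCard K → ∀ κ : ℕ, Tendsto (fun x : ℕ =>
      ((Pool.Agent.TH882.RQ.ExQ (fun j => sh (g j)) (B.image (· + 1)) m D κ x).card : ℝ) /
        ∏ j, (x : ℝ) ^ (g j).natDegree) atTop (𝓝 0) := by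
    intro B
    by_cases hB : B ∈ A.powersetCard K
    · obtain ⟨D, h⟩ := hfin (fun j => sh (g j)) (fun j => by rw [sh_deg]; exact hd j)
        (fun j => by rw [sh_lead]; exact hl j) (B.image (· + 1)) (by
          rw [card_image_of_injective _ hinj1, (mem_powersetCard.1 hB).2]) (by
          intro u hu
          rw [mem_image] at hu
          obtain ⟨a, -, rfl⟩ := hu
          omega)
      refine ⟨D, fun _ κ => ?_⟩
      have h1 := h κ
      simp only [sh_deg] at h1
      exact h1
    · exact ⟨0, fun h => absurd h hB⟩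
  choose D hD using h0
  refine ⟨(A.powersetCard K).sup D, fun κ => ?_⟩
  have hlim : Tendsto (fun x : ℕ => ∑ B ∈ A.powersetCard K,
      ((Pool.Agent.TH882.RQ.ExQ (fun j => sh (g j)) (B.image (· + 1)) m (D B) κ x).card : ℝ) /
        ∏ j, (x : ℝ) ^ (g j).natDegree) atTop (𝓝 0) := by
    have h1 := tendsto_finsetSum (A.powersetCard K) fun B hB => hD B hB κ
    simpa using h1
  refine tendsto_of_tendsto_of_tendsto_of_le_of_le' tendsto_const_nhds hlim
    (Eventually.of_forall fun x => by positivity) ?_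
  filter_upwards [eventually_ge_atTop 3] with x hx
  rw [← sum_div]
  apply div_le_div_of_nonneg_right _ (by positivity)
  rw [← Nat.cast_sum]
  apply Nat.cast_le.2
  refine le_trans ?_ (card_biUnion_le (s := A.powersetCard K)
    (t := fun B => Pool.Agent.TH882.RQ.ExQ (fun j => sh (g j)) (B.image (· + 1)) m (D B) κ x))
  rw [← Set.ncard_coe_finset]
  apply Set.ncard_le_ncard _ (finite_toSet _)
  intro k hk
  unfold exceptions at hk
  rw [Set.mem_ofPred_eq] at hk
  obtain ⟨h1, h2, h3⟩ := hk
  rw [mem_coe, mem_biUnion]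
  by_contra hcon
  push Not at hcon
  refine absurd h3 (not_lt.2 ?_)
  refine supersaturation A (patterns g k A m ((A.powersetCard K).sup D) x) m K hmK hA
    (filter_subset _ _) ?_
  intro B hB
  have h4 := hcon B hB
  unfold Pool.Agent.TH882.RQ.ExQ at h4
  rw [mem_filter, Fintype.mem_piFinset] at h4
  push Not at h4
  have hBA := (mem_powersetCard.1 hB).1
  obtain ⟨H', hH'1, hH'2, hH'3⟩ := h4 (fun j => by
    rw [sh_deg, mem_Icc]
    exact h1 j) (loc_of g k A B hBA h2)
  have hHH' : H' = (B.filter (fun a => a + 1 ∈ H')).image (· + 1) := by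
    ext u
    rw [mem_image]
    constructor
    · intro hu
      have e1 := hH'1 hu
      rw [mem_image] at e1
      obtain ⟨a, ha, rfl⟩ := e1
      exact ⟨a, by rw [mem_filter]; exact ⟨ha, hu⟩, rfl⟩
    · rintro ⟨a, ha, rfl⟩
      rw [mem_filter] at ha
      exact ha.2
  have hcard : (B.filter (fun a => a + 1 ∈ H')).card = m := by
    rw [← hH'2]
    conv_rhs => rw [hHH', card_image_of_injective _ hinj1]
  refine ⟨B.filter (fun a => a + 1 ∈ H'), ?_, filter_subset _ _⟩
  unfold patterns
  rw [mem_filter, mem_powersetCard]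
  refine ⟨⟨(filter_subset _ _).trans hBA, hcard⟩, ?_⟩
  have hlog : 1 ≤ Real.log x := by
    have h5 : (3 : ℝ) ≤ x := by exact_mod_cast hx
    have h6 : Real.exp 1 ≤ x := (Real.exp_one_lt_d9.le.trans (by norm_num)).trans h5
    have h7 := Real.log_le_log (Real.exp_pos 1) h6
    rwa [Real.log_exp] at h7
  calc (x : ℝ) / Real.log x ^ ((A.powersetCard K).sup D) ≤ (x : ℝ) / Real.log x ^ (D B) :=
        div_le_div_of_nonneg_left (by positivity) (by positivity)
          (pow_le_pow_right₀ hlog (Finset.le_sup hB))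
    _ ≤ _ := hH'3
    _ ≤ _ := by exact_mod_cast count_ge g k B H' x hH'1

/-- **Simultaneous prime values of linear forms `x + h` and of polynomials of arbitrary degrees.**

For every `m` there are `K` and `c > 0` such that the following holds for all `r`, all nonconstant
integer polynomials `g_1, …, g_r` with positive leading coefficients and every set `A` of at least `K`
natural numbers, with some exponent `D`. Let `κ ≥ 1`. For all vectors `k` of integers
`1 ≤ k_j ≤ κ x ^ deg g_j` for which the product of the `x + a`, `a ∈ A`, and of the `g_j + k_j` has no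
fixed prime divisor, with `o (∏ x ^ deg g_j)` exceptions, at least `c * binom (|A|, m)` of the subsets
`H` of `A` with `m` elements have the property: for at least `x / (log x) ^ D` of the integers
`1 ≤ n ≤ x` the numbers `n + h`, `h ∈ H`, are CONSECUTIVE primes and all the `g_j (n) + k_j` are
prime. -/
theorem result (m : ℕ) : ∃ K : ℕ, ∃ c : ℝ, 0 < c ∧ ∀ (r : ℕ) (g : Fin r → ℤ[X]),
    (∀ j, 1 ≤ (g j).natDegree) → (∀ j, 0 < (g j).leadingCoeff) → ∀ A : Finset ℕ, K ≤ A.card →
    ∃ D : ℕ, ∀ κ : ℕ, Tendsto (fun x : ℕ => ((exceptions g A m c D κ x).ncard : ℝ) /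
      ∏ j, (x : ℝ) ^ (g j).natDegree) atTop (𝓝 0) :=
  part_one m

end Pool.Agent.Results.MP_51e72e_nt.ConsecutivePrimePatterns
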