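import Pool.Agent.TH935.TF9
import Pool.Agent.V11290.FD.Fam3
import Pool.Agent.V11290.FD.Win

/-!
# The quantitative Hypothesis H for systems of linear polynomials with constant terms near `t θ i + s i`, for almost
every `θ` with respect to arbitrary products of measures with a Fourier transform of polynomial decay

Let `μ 1, ..., μ k` be ANY compactly supported probability measures on the line whose Fourier transforms decay like some
power, with an arbitrarily small exponent `σ > 0`. (Such measures live on many sets of Lebesgue measure zero and of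
arbitrarily small dimension: on the badly approximable numbers with bounded partial quotients (Kaufman), on the sets of
`τ`-well approximable numbers (Kaufman), on limit sets of convex cocompact Fuchsian groups (Bourgain, Dyatlov), on random
Salem sets, ...). For almost every vector `θ` with respect to the product measure ALL integer vectors `β` near
`t j θ + s j` are such that ALL admissible systems of linear polynomials `α i x + β i` with small slopes satisfy the
conjecture, in all windows.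

Proof: the law of a random rounding of `t θ` is approximated by a finite family of integers (with multiplicities); its
additive energy of order `p ≥ 1 / σ` is nearly minimal since the characteristic function of the rounding is small away
from the integers (a Fourier series with the coefficients `sinc²`). The theorem of the library TH935.TF on products of
thin families (starting files) is applied to these families, the result is carried back to the measure, and then the
lemma of Borel and Cantelli is applied.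
-/

set_option autoImplicit false

namespace Pool.Agent.Results.MP_51e72e_nt.FourierDecaySystems

open Finset Filter Topology MeasureTheory

/-- `ω_F(p)` for the set `F` of the polynomials `f_i(x) = α i x + β i`: the number of residue classes of
`n` modulo `p` with `f_1(n) ⋯ f_k(n) ≡ 0 (mod p)`. -/
def omega {k : ℕ} (α β : Fin k → ℤ) (p : ℕ) : ℕ :=
  ((range p).filter (fun n : ℕ => (p : ℤ) ∣ ∏ i, (α i * (n : ℤ) + β i))).card

/-- The product over the primes `p ≤ z` of the factors `(1 - ω_F(p) / p) / (1 - 1 / p) ^ k` of `C_F`. -/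
noncomputable def eulerProd {k : ℕ} (α β : Fin k → ℤ) (z : ℕ) : ℝ :=
  ∏ p ∈ (Icc 1 z).filter Nat.Prime, (1 - (omega α β p : ℝ) / p) / (1 - 1 / (p : ℝ)) ^ k

/-- The number of `n` with `y₁ < n ≤ y₂` such that `|α i n + β i|` is prime for every `i`. -/
def count {k : ℕ} (α β : Fin k → ℤ) (y₁ y₂ : ℕ) : ℕ :=
  ((Ioc y₁ y₂).filter (fun n : ℕ => ∀ i, (α i * (n : ℤ) + β i).natAbs.Prime)).card

/-- The polynomials `α i x + β i` are not constant, no two of them are equal up to sign, and their product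
has no fixed prime divisor. -/
def Admissible {k : ℕ} (α β : Fin k → ℤ) : Prop :=
  (∀ i, α i ≠ 0) ∧
  (∀ i j, i ≠ j → ¬ (α i = α j ∧ β i = β j) ∧ ¬ (α i = -α j ∧ β i = -β j)) ∧
  (∀ p : ℕ, p.Prime → ∃ n : ℤ, ¬ (p : ℤ) ∣ ∏ i, (α i * n + β i))

/-- For all slopes `|α i| ≤ log ^ D N` for which the system `F` of the `α i x + β i` is admissible, the
product `C_F` converges to a positive number `c`, and for all `y₁ < y₂ ≤ B N` with
`y₂ - y₁ ≥ N / log ^ A N` the number of `n` with `y₁ < n ≤ y₂` such that all `|α i n + β i|` are prime agrees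
with `c (y₂ - y₁) / log ^ k N` up to a relative error of at most `ε`. -/
def Holds (ε : ℝ) (A B D N : ℕ) {k : ℕ} (β : Fin k → ℤ) : Prop :=
  ∀ α : Fin k → ℤ, (∀ i, |(α i : ℝ)| ≤ Real.log N ^ D) → Admissible α β →
    ∃ c : ℝ, 0 < c ∧ Tendsto (eulerProd α β) atTop (𝓝 c) ∧
      ∀ y₁ y₂ : ℕ, y₁ < y₂ → y₂ ≤ B * N → (N : ℝ) / Real.log N ^ A ≤ (y₂ : ℝ) - y₁ →
        |(count α β y₁ y₂ : ℝ) - c * ((y₂ : ℝ) - y₁) / Real.log N ^ k| ≤
          ε * (c * ((y₂ : ℝ) - y₁) / Real.log N ^ k)

open Pool.Agent.TH935.TF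

lemma dvd_prod {k : ℕ} (α β : Fin k → ℤ) (p : ℕ) (hp : p.Prime) (n : ℤ) :
    (p : ℤ) ∣ ∏ i, (α i * n + β i) ↔ ∃ i, (p : ℤ) ∣ α i * n + β i := by
  have h := (Nat.prime_iff_prime_int.1 hp).dvd_finsetProd_iff (S := univ) (fun i => α i * n + β i)
  simpa using h

lemma omega_eq {k : ℕ} (α β : Fin k → ℤ) (p : ℕ) (hp : p.Prime) : omega α β p = om α β p := by
  unfold omega om
  congr 1
  apply filter_congr
  intro n _
  exact dvd_prod α β p hp n

lemma euler_eq {k : ℕ} (α β : Fin k → ℤ) : eulerProd α β = fun z => Gz (om α β) k z := by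
  funext z
  unfold eulerProd Gz Fq Pool.Agent.H373R2.T7.pz
  apply prod_congr rfl
  intro p hp
  rw [omega_eq α β p (mem_filter.1 hp).2]

lemma adm_of {k : ℕ} (α β : Fin k → ℤ) (h : Admissible α β) : Adm α β := by
  intro p hp
  obtain ⟨n, hn⟩ := h.2.2 p hp
  refine ⟨n, fun i hi => hn ?_⟩
  exact (dvd_prod α β p hp n).2 ⟨i, hi⟩

lemma holds_of (ε : ℝ) (A B D N : ℕ) {k : ℕ} (β : Fin k → ℤ)
    (h : HW (fun α : Fin k → ℤ => α) (fun β : Fin k → ℤ => β) ε A B D N β) : Holds ε A B D N β := by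
  intro α hαL hadm
  obtain ⟨S, hS0, hSt, hS⟩ := h α hadm.1 (fun i => by rw [Nat.cast_natAbs, Int.cast_abs]; exact hαL i) (adm_of α β hadm) hadm.2.1
  refine ⟨S, hS0, by rw [euler_eq]; exact hSt, fun y₁ y₂ h12 hy2 hΔ => ?_⟩
  exact hS y₁ y₂ h12.le hy2 hΔ


lemma holds_mono (ε ε' : ℝ) (A A' B B' D D' N : ℕ) (hL : 1 ≤ Real.log N) (hε : ε ≤ ε') (hA : A' ≤ A) (hB : B' ≤ B) (hD : D' ≤ D)
    {k : ℕ} (β : Fin k → ℤ) (h : Holds ε A B D N β) : Holds ε' A' B' D' N β := by
  intro α hα hadm
  obtain ⟨c, hc, ht, hw⟩ := h α (fun i => (hα i).trans (pow_le_pow_right₀ hL hD)) hadm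
  refine ⟨c, hc, ht, fun y₁ y₂ h12 hy hΔ => ?_⟩
  have h0 : (0 : ℝ) < (y₂ : ℝ) - y₁ := by
    have : (y₁ : ℝ) < y₂ := by exact_mod_cast h12
    linarith
  refine (hw y₁ y₂ h12 (hy.trans (Nat.mul_le_mul_right _ hB)) ?_).trans ?_
  · refine le_trans ?_ hΔ
    apply div_le_div_of_nonneg_left (Nat.cast_nonneg _) (by positivity)
    exact pow_le_pow_right₀ hL hA
  · exact mul_le_mul_of_nonneg_right hε (by positivity)

/-- Let `μ 1, ..., μ k` be probability measures on `[-B, B]` with `|μ_i^(ξ)| ≤ C |ξ| ^ (-σ)` for `|ξ| ≥ 1` and some `C` and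
`σ > 0`. Let `t j ≥ 2` and `|s j i| ≤ B t j` be real numbers, where `j` ranges over a set `J`, such that the sum of the
`1 / log ^ V (t j)` converges for some `V`. Then for almost every `θ` with respect to the product of the `μ i`, for all `A`,
`A'`, `B'`, `D` and `ε > 0` and for all but finitely many `j`: ALL vectors `β` of integers with
`|β i - (t j θ i + s j i)| ≤ log ^ A (t j)` for all `i` are such that for ALL slopes `|α i| ≤ log ^ D N`, `N = ⌈t j⌉`, for
which the system `F` of the linear polynomials `α i x + β i` is admissible, and for ALL windows `y₁ < n ≤ y₂` with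
`y₂ ≤ B' N` and `y₂ - y₁ ≥ N / log ^ A' N`, the number of the `n` in the window such that `|α i n + β i|` is prime for all
`i` agrees with `C_F (y₂ - y₁) / log ^ k N` up to a relative error of at most `ε`. -/
theorem result (k : ℕ) (hk : 1 ≤ k) (μ : Fin k → Measure ℝ) [∀ i, IsProbabilityMeasure (μ i)] (B : ℝ)
    (hμ : ∀ i, ∀ᵐ α ∂(μ i), |α| ≤ B) (C σ : ℝ) (hσ : 0 < σ)
    (hdec : ∀ i, ∀ ξ : ℝ, 1 ≤ |ξ| → ‖charFun (μ i) ξ‖ ≤ C * |ξ| ^ (-σ))
    (J : Type) (t : J → ℝ) (s : J → Fin k → ℝ) (ht : ∀ j, 2 ≤ t j) (hs : ∀ j i, |s j i| ≤ B * t j)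
    (hsum : ∃ V : ℕ, Summable fun j => 1 / Real.log (t j) ^ V) :
    ∀ᵐ θ ∂(Measure.pi μ), ∀ (A A' B' D : ℕ) (ε : ℝ), 0 < ε →
      {j | ¬ ∀ β : Fin k → ℤ, (∀ i, |(β i : ℝ) - (t j * θ i + s j i)| ≤ Real.log (t j) ^ A) →
        Holds ε A' B' D ⌈t j⌉₊ β}.Finite := by
  classical
  obtain ⟨V, hV⟩ := hsum
  obtain ⟨p, hp⟩ := exists_nat_ge (1 / σ)
  obtain ⟨B₁, hB₁⟩ := exists_nat_ge (2 * (|B| + 1) + 16)
  have hpσ : 1 ≤ ((p + 1 : ℕ) : ℝ) * σ := by
    rw [div_le_iff₀ hσ] at hp
    push_cast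
    nlinarith
  have h := Pool.Agent.V11290.FD.abs_pi (|B| + 1) C σ (by positivity) hσ μ hdec
    (fun i => by
      filter_upwards [hμ i] with α hα
      linarith [le_abs_self B]) t s ht V hV (fun j i => (hs j i).trans (by nlinarith [ht j, le_abs_self B])) (p + 1) (by omega) hpσ B₁ hB₁
    (fun i j β => Holds (1 / ((i : ℝ) + 1)) i i i ⌈t j⌉₊ β) (by
    intro i U
    obtain ⟨N₀, h0⟩ := fam_sys (sys_one k hk) hk (p + 1) i (max B₁ i) 1 i U (1 / ((i : ℝ) + 1)) (by positivity)
    refine ⟨max N₀ 3, fun j hj x v hv hE 𝒮 h𝒮 hbad => ?_⟩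
    have hN1 : t j ≤ (⌈t j⌉₊ : ℝ) := Nat.le_ceil _
    have hN : N₀ ≤ ⌈t j⌉₊ := by
      have : (N₀ : ℝ) ≤ (⌈t j⌉₊ : ℝ) := ((le_max_left _ _).trans hj).trans hN1
      exact_mod_cast this
    have h3 : (3 : ℝ) ≤ (⌈t j⌉₊ : ℝ) := ((le_max_right _ _).trans hj).trans hN1
    have hL : 1 ≤ Real.log (⌈t j⌉₊ : ℝ) := by
      rw [Real.le_log_iff_exp_le (by linarith)]
      linarith [Real.exp_one_lt_d9]
    refine h0 ⌈t j⌉₊ hN x v (fun a m hm => (hv a m hm).trans ?_) (fun a => by rw [pow_one]; exact hE a) 𝒮 h𝒮 (fun q hq hG => ?_)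
    · apply mul_le_mul_of_nonneg_right _ (by positivity)
      exact_mod_cast le_max_left _ _
    · exact hbad q hq (holds_mono _ _ i i (max B₁ i) i i i _ hL le_rfl le_rfl (le_max_right _ _) le_rfl _ (holds_of _ _ _ _ _ _ hG)))
  filter_upwards [h] with θ hθ A A' B' D ε hε
  obtain ⟨i, hi⟩ := exists_nat_ge (max (max (A' : ℝ) B') (max (D : ℝ) (1 / ε)))
  have i1 : A' ≤ i := by exact_mod_cast ((le_max_left _ _).trans (le_max_left _ _)).trans hi
  have i2 : B' ≤ i := by exact_mod_cast ((le_max_right _ _).trans (le_max_left _ _)).trans hi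
  have i3 : D ≤ i := by exact_mod_cast ((le_max_left _ _).trans (le_max_right _ _)).trans hi
  have i4 : 1 / ε ≤ i := ((le_max_right _ _).trans (le_max_right _ _)).trans hi
  have hε' : 1 / ((i : ℝ) + 1) ≤ ε := by
    rw [div_le_iff₀ hε] at i4
    rw [div_le_iff₀ (by positivity)]
    nlinarith
  -- finitely many small `t j`
  have hsmall := Pool.Agent.V11290.FD.small_fin t ht V hV 3
  refine ((hθ A i).union hsmall).subset ?_
  intro j hj
  rw [Set.mem_ofPred_eq] at hj
  by_cases h3 : t j < 3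
  · right
    exact h3
  left
  rw [Set.mem_ofPred_eq]
  intro hall
  apply hj
  intro β hβ
  have hL : 1 ≤ Real.log (⌈t j⌉₊ : ℝ) := by
    have h4 : (3 : ℝ) ≤ (⌈t j⌉₊ : ℝ) := (not_lt.1 h3).trans (Nat.le_ceil _)
    rw [Real.le_log_iff_exp_le (by linarith)]
    linarith [Real.exp_one_lt_d9]
  exact holds_mono _ _ i A' i B' i D _ hL hε' i1 i2 i3 _ (hall β hβ)

end Pool.Agent.Results.MP_51e72e_nt.FourierDecaySystems
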