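import Pool.Agent.Y879.GL.UnifPoly
import Pool.Agent.Y879.GL.Pattern
import Pool.Agent.Y879.PR.Full

set_option autoImplicit false

/-!
# Almost prime values of systems of polynomials, uniformly in the system: the laws of the gaps, and the
# asymptotics and the Poisson law after the arguments where one of the values is prime

Call `m` good for the system `f` of `k` irreducible polynomials if no prime up to `X ^ (1 / r)`
divides any of the values `f i (m)`; let `V` be the product of `1 - ω(p) / p` over these primes.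

(1) For good `m ≤ X ^ B` all the values have a bounded number of prime factors.

(2) In EVERY interval `(u, u + Y]` with `Y ≥ X ^ θ` (no bound for `u`) the distances of the good integers
to the `l`-th good integer before them are distributed as in a Poisson process of the density `V`, up to
a relative error `ε`, which tends to `0` as `r` grows.

(3) If one of the polynomials is `a x + b`, with a fixed squarefree `a` which is prime to all the values,
the number of the good `n` for which `a n + b` is PRIME is asymptotically the expected one, in all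
intervals of positive proportion of `[0, X]`, `X ≥ N ^ θ`; and after these `n` the next good integers
follow the Poisson law.

All this holds uniformly for all systems of polynomials of degree at most `D` with coefficients up to
ANY fixed power of `N`, without fixed prime divisor, no two of whose members are translates of each other
by `t ≤ N ^ δ`, up to the sign, and with `V = O (1 / log N)`.

The proof combines the theorems `Pool.Agent.Y879.GL.gap_polys` and `Pool.Agent.Y879.PR.prime_full` of the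
starting library; none of the starting hand-ins states one of them.
-/

namespace Pool.Agent.Results.MP_51e72e_nt.GapLawsUniform

open Polynomial Finset Filter

/-- No prime up to `X ^ (1 / r)` divides any of the values `f i (m)`. -/
def Good {k : ℕ} (f : Fin k → ℤ[X]) (r N m : ℕ) : Prop :=
  ∀ p : ℕ, p.Prime → (p : ℝ) ≤ (N : ℝ) ^ (1 / (r : ℝ)) → ∀ i, ¬ (p : ℤ) ∣ (f i).eval (m : ℤ)

open Classical in
/-- The number of the good `n` in `(u, u + Y]` with fewer than `l` good integers in `[n - T, n)`. -/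
noncomputable def G {k : ℕ} (f : Fin k → ℤ[X]) (r N l T u Y : ℕ) : ℕ :=
  ((Finset.Ioc u (u + Y)).filter (fun n => Good f r N n ∧
    ((Finset.Ico (n - T) n).filter (fun m => Good f r N m)).card < l)).card

open Classical in
/-- The sieve density: the product of `1 - ω(p) / p` over the primes `p ≤ N ^ (1 / r)`, where `ω(p)` is
the number of the `m` modulo `p` for which `p` divides some `f i (m)`. -/
noncomputable def V {k : ℕ} (f : Fin k → ℤ[X]) (r N : ℕ) : ℝ :=
  ∏ p ∈ (Finset.range (⌊(N : ℝ) ^ (1 / (r : ℝ))⌋₊ + 1)).filter Nat.Prime,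
    (1 - (((Finset.range p).filter
      (fun m : ℕ => ∃ i, (p : ℤ) ∣ (f i).eval (m : ℤ))).card : ℝ) / p)

open Classical in
/-- The good `n` in `(u, u + Y]` for which `a n + b` is PRIME. -/
noncomputable def P {k : ℕ} (f : Fin k → ℤ[X]) (a b r N u Y : ℕ) : Finset ℕ :=
  (Finset.Ioc u (u + Y)).filter (fun n => (a * n + b).Prime ∧ Good f r N n)

open Classical in
/-- The number of the good integers in `(n, n + T]`. -/
noncomputable def Next {k : ℕ} (f : Fin k → ℤ[X]) (r N T n : ℕ) : ℕ :=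
  ((Finset.Ioc n (n + T)).filter (fun m => Good f r N m)).card

/-- The product of `1 - 1 / p` over the primes `p ≤ N ^ (1 / r)`. -/
noncomputable def U (r N : ℕ) : ℝ :=
  ∏ p ∈ (Finset.Icc 1 ⌊(N : ℝ) ^ (1 / (r : ℝ))⌋₊).filter Nat.Prime, (1 - 1 / (p : ℝ))

open Pool.Agent.TH464.PO Pool.Agent.TH464.PW Pool.Agent.W123.RU.Poly Pool.Agent.W123.RP
open Pool.Agent.H373R2.T7 Pool.Agent.Y879.GL Pool.Agent.Y879.PR

lemma good_iff {k : ℕ} (f : Fin k → ℤ[X]) (r N m : ℕ) :
    Sf (Q f) ⌊(N : ℝ) ^ (1 / (r : ℝ))⌋₊ m ↔ Good f r N m := by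
  have h0 : (0 : ℝ) ≤ (N : ℝ) ^ (1 / (r : ℝ)) := by positivity
  constructor
  · intro h p hp hpX i hd
    exact h p (mem_pz.2 ⟨Nat.le_floor hpX, hp⟩) ⟨i, hd⟩
  · rintro h p hp ⟨i, hd⟩
    obtain ⟨h1, h2⟩ := mem_pz.1 hp
    exact h p h2 ((Nat.le_floor_iff h0).1 h1) i hd

open Classical in
lemma V_eq {k : ℕ} (f : Fin k → ℤ[X]) (r N : ℕ) :
    Vq (Q f) ⌊(N : ℝ) ^ (1 / (r : ℝ))⌋₊ = V f r N := by
  unfold Vq V
  apply Finset.prod_congr
  · unfold pz
    ext p
    simp only [mem_filter, mem_Icc, mem_range]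
    constructor
    · rintro ⟨h1, h2⟩
      exact ⟨by omega, h2⟩
    · rintro ⟨h1, h2⟩
      exact ⟨⟨h2.one_lt.le, by omega⟩, h2⟩
  · intro p _
    have h : nuB (Q f) p = ((Finset.range p).filter
        (fun m : ℕ => ∃ i, (p : ℤ) ∣ (f i).eval (m : ℤ))).card := by
      unfold nuB
      congr 1
      apply Finset.filter_congr
      intro m _
      exact Iff.rfl
    rw [h]

/-- few prime factors -/
lemma few {k D B r N m : ℕ} {E : ℝ} (f : Fin k → ℤ[X]) (hd : ∀ i, (f i).natDegree ≤ D)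
    (hh : ∀ i n, |(((f i).coeff n : ℤ) : ℝ)| ≤ (N : ℝ) ^ E) (hr : 1 ≤ r) (hN : D + 2 ≤ N)
    (hm : m ≤ N ^ B) (hg : Good f r N m) (i : Fin k) :
    ((f i).eval (m : ℤ)).natAbs.primeFactorsList.length ≤ (⌈E⌉₊ + B * D + 1) * r := by
  rcases eq_or_ne ((f i).eval (m : ℤ)) 0 with h0 | h0
  · rw [h0]
    simp
  have hr0 : (0 : ℝ) < r := by exact_mod_cast hr
  have hN2 : (2 : ℝ) ≤ N := by exact_mod_cast (by omega : 2 ≤ N)
  have hN0 : (0 : ℝ) < N := by linarith
  have hN1 : (1 : ℝ) ≤ N := by linarith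
  have hpow : ((N : ℝ) ^ (1 / (r : ℝ))) ^ r = N := by
    rw [← Real.rpow_natCast, ← Real.rpow_mul hN0.le, one_div, inv_mul_cancel₀ hr0.ne', Real.rpow_one]
  have hEE : (N : ℝ) ^ E ≤ (N : ℝ) ^ ⌈E⌉₊ := by
    rw [← Real.rpow_natCast]
    exact Real.rpow_le_rpow_of_exponent_le hN1 (Nat.le_ceil E)
  apply few_of_rough ((N : ℝ) ^ (1 / (r : ℝ))) (Real.one_lt_rpow (by linarith) (by positivity)) _ _
    (by rwa [Ne, Int.natAbs_eq_zero])
  · rw [mul_comm (⌈E⌉₊ + B * D + 1) r, pow_mul, hpow]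
    have e1 : ((((f i).eval (m : ℤ)).natAbs : ℕ) : ℝ) = |(((f i).eval (m : ℤ) : ℤ) : ℝ)| := by
      rw [Nat.cast_natAbs]
      push_cast
      rfl
    rw [e1, eval_eq_sum_range]
    push_cast
    calc |∑ j ∈ Finset.range ((f i).natDegree + 1), ((f i).coeff j : ℝ) * (m : ℝ) ^ j|
        ≤ ∑ j ∈ Finset.range ((f i).natDegree + 1), |((f i).coeff j : ℝ) * (m : ℝ) ^ j| :=
          Finset.abs_sum_le_sum_abs _ _
      _ ≤ ∑ _j ∈ Finset.range ((f i).natDegree + 1), (N : ℝ) ^ ⌈E⌉₊ * (N : ℝ) ^ (B * D) := by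
        apply Finset.sum_le_sum
        intro j hj
        rw [Finset.mem_range] at hj
        rw [abs_mul, abs_of_nonneg (show (0 : ℝ) ≤ (m : ℝ) ^ j by positivity)]
        apply mul_le_mul ((hh i j).trans hEE) _ (by positivity) (by positivity)
        have h1 : (m : ℝ) ≤ (N : ℝ) ^ B := by exact_mod_cast hm
        calc (m : ℝ) ^ j ≤ ((N : ℝ) ^ B) ^ j := pow_le_pow_left₀ (Nat.cast_nonneg _) h1 j
          _ = (N : ℝ) ^ (B * j) := (pow_mul _ _ _).symm
          _ ≤ (N : ℝ) ^ (B * D) :=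
            pow_le_pow_right₀ hN1 (Nat.mul_le_mul_left B (by have := hd i; omega))
      _ = (((f i).natDegree + 1 : ℕ) : ℝ) * ((N : ℝ) ^ ⌈E⌉₊ * (N : ℝ) ^ (B * D)) := by
        rw [sum_const, card_range, nsmul_eq_mul]
      _ ≤ N * ((N : ℝ) ^ ⌈E⌉₊ * (N : ℝ) ^ (B * D)) := by
        apply mul_le_mul_of_nonneg_right _ (by positivity)
        exact_mod_cast (by have := hd i; omega : (f i).natDegree + 1 ≤ N)
      _ = (N : ℝ) ^ (⌈E⌉₊ + B * D + 1) := by ring
  · intro q hq hqd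
    by_contra hcon
    rw [not_lt] at hcon
    exact hg q hq hcon i (Int.natCast_dvd.2 hqd)

/-- the admissible systems -/
def Adm (k D : ℕ) (E δ : ℝ) (N : ℕ) (f : Fin k → ℤ[X]) : Prop :=
  (∀ i, Irreducible (f i)) ∧ (∀ i, (f i).natDegree ≠ 0) ∧ (∀ i, (f i).natDegree ≤ D) ∧
  (∀ i n, |(((f i).coeff n : ℤ) : ℝ)| ≤ (N : ℝ) ^ E) ∧
  (∀ p : ℕ, p.Prime → ∃ m : ℕ, ∀ i, ¬ (p : ℤ) ∣ (f i).eval (m : ℤ)) ∧
  (∀ i j, ∀ t : ℕ, 1 ≤ t → (t : ℝ) ≤ (N : ℝ) ^ δ →
    ¬ Associated (f i) ((f j).comp (Polynomial.X + Polynomial.C (t : ℤ))))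

open Classical in
/-- **Gap laws, asymptotics and the law after primes for systems of polynomials, uniformly.** -/
theorem result (k D a : ℕ) (ha : Squarefree a) (E δ θ η : ℝ) (hE : 0 < E) (hδ : 0 < δ) (hθ : 0 < θ)
    (hη : 0 < η) (hη1 : η ≤ 1) (l0 : ℕ) (x0 ε : ℝ) (hε : 0 < ε) (hε1 : ε ≤ 1) :
    ∃ r0 : ℕ, 2 ≤ r0 ∧ ∀ r : ℕ, r0 ≤ r → ∀ C : ℝ, ∀ᶠ N : ℕ in atTop, ∀ f : Fin k → ℤ[X],
      Adm k D E δ N f → V f r N ≤ C / Real.log N →
      (∀ B m : ℕ, m ≤ N ^ B → Good f r N m → ∀ i,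
        ((f i).eval (m : ℤ)).natAbs.primeFactorsList.length ≤ (⌈E⌉₊ + B * D + 1) * r) ∧
      (∀ u Y : ℕ, (N : ℝ) ^ θ ≤ Y → ∀ l T : ℕ, (l ≤ l0 ∨ T * V f r N ≤ x0) →
        |(G f r N l T u Y : ℝ) - Y * V f r N *
          ∑ j ∈ Finset.range l, Real.exp (-(T * V f r N)) * (T * V f r N) ^ j / j.factorial| ≤
        ε * (Y * V f r N)) ∧
      ∀ b : ℕ, (b : ℝ) ≤ (N : ℝ) ^ (θ / 4) → Nat.Coprime a b →
        (∀ p n : ℕ, p.Prime → p ∣ a → ∀ i, ¬ (p : ℤ) ∣ (f i).eval (n : ℤ)) →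
        (∃ i, ∀ n : ℕ, (f i).eval (n : ℤ) = a * n + b) →
        ∀ X : ℕ, (N : ℝ) ^ θ ≤ X → ∀ u Y : ℕ, η * X ≤ Y → u + Y ≤ X →
        |((P f a b r N u Y).card : ℝ) * Real.log X - Y * (V f r N / U r N)| ≤
          ε * (Y * (V f r N / U r N)) ∧
        ∀ T : ℕ, T * V f r N ≤ x0 → ∀ S : Finset ℕ,
        |(((P f a b r N u Y).filter (fun n => Next f r N T n ∈ S)).card : ℝ) -
          (P f a b r N u Y).card *
            ∑ j ∈ S, Real.exp (-(T * V f r N)) * (T * V f r N) ^ j / j.factorial| ≤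
          ε * (P f a b r N u Y).card := by
  obtain ⟨r1, h1⟩ := Pool.Agent.Y879.GL.gap_polys k D E δ θ hE hδ hθ l0 x0 ε hε
  obtain ⟨r2, hr2, h2⟩ := prime_full a k D ha E δ θ η hE hδ hθ hη hη1 x0 ε hε hε1
  refine ⟨max r1 r2, hr2.trans (le_max_right _ _), ?_⟩
  intro r hr Cv
  filter_upwards [h1 r ((le_max_left _ _).trans hr) Cv, h2 r ((le_max_right _ _).trans hr) Cv,
    eventually_ge_atTop (D + 2)] with N g1 g2 g3
  rintro f ⟨a1, a2, a3, a4, a5, a6⟩ hV
  have hr1 : 1 ≤ r := by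
    have := (le_max_right r1 r2).trans hr
    omega
  refine ⟨fun B m hm hg i => few f a3 a4 hr1 g3 hm hg i, ?_, ?_⟩
  · intro u Y hY l T hlT
    have h := g1 f ⟨a1, a2, a3, a4, a5, a6⟩ (by rw [V_eq]; exact hV) u Y hY l T
      (by rw [V_eq]; exact hlT)
    rw [V_eq] at h
    have hG : Pk (Sf (Q f) ⌊(N : ℝ) ^ (1 / (r : ℝ))⌋₊) l T u Y = G f r N l T u Y := by
      unfold Pk G
      simp only [good_iff]
    rw [hG] at h
    exact h
  · intro b hb hab hna hbase X hX u Y hY huY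
    obtain ⟨e1, e2⟩ := g2 f b ⟨a1, a2, a3, a4, a5, a6⟩ hab
      (fun p n hp hpa hQ => by
        obtain ⟨i, hi⟩ := hQ
        exact hna p n hp hpa i hi) hbase (by rw [V_eq]; exact hV) hb X hX u Y hY huY
    have hOm : Om a b (Q f) ⌊(N : ℝ) ^ (1 / (r : ℝ))⌋₊ u Y = P f a b r N u Y := by
      unfold Om P
      simp only [good_iff]
    have hW : ∀ n, Wc (Sf (Q f) ⌊(N : ℝ) ^ (1 / (r : ℝ))⌋₊) n = fun T => Next f r N T n := by
      intro n
      funext T
      unfold Wc Next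
      simp only [good_iff]
    have hUz : Vz ⌊(N : ℝ) ^ (1 / (r : ℝ))⌋₊ = U r N := rfl
    rw [hOm, V_eq, hUz] at e1
    refine ⟨e1, fun T hT S => ?_⟩
    have e3 := e2 T (by rw [V_eq]; exact hT) S
    rw [hOm, V_eq] at e3
    simp only [hW] at e3
    exact e3

end Pool.Agent.Results.MP_51e72e_nt.GapLawsUniform
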