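import Pool.Agent.V11251.DS.LinM5

/-!
# Prime values of systems of linear polynomials with palindromic constants

The analytic input (the law of the palindromes, second moments of the error for one form, deterministic parts for
systems of linear forms) is in the starting files `Pool.Agent.H373R2.T7`, `Pool.Agent.W93`, `Pool.Agent.TH872`,
`Pool.Agent.Y820.LF`.
-/

set_option autoImplicit false

namespace Pool.Agent.Results.MP_51e72e_nt.PalindromicConstants

open Finset

/-- `v` is a palindrome with exactly `k` digits in base `b`: the digit number `j` (which is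
`v / b ^ j % b`) is equal to the digit number `k - 1 - j`, for all `j < k`. -/
def IsPalindrome (b k v : ℕ) : Prop :=
  b ^ (k - 1) ≤ v ∧ v < b ^ k ∧ ∀ j < k, v / b ^ j % b = v / b ^ (k - 1 - j) % b

open Classical in
/-- The palindromes with exactly `k` digits in base `b`. -/
noncomputable def pal (b k : ℕ) : Finset ℕ := (range (b ^ k)).filter (IsPalindrome b k)

/-- The number of the residues `r` modulo `p` for which `p` divides one of the values `q i * r + h i`. -/
def nu {s : ℕ} (q h : Fin s → ℤ) (p : ℕ) : ℕ := ((range p).filter (fun r : ℕ => ∃ i, (p : ℤ) ∣ q i * (r : ℤ) + h i)).card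

/-- The system of the linear forms `q i * n + h i` is admissible: no prime divides a value for every `n`. -/
def Admissible {s : ℕ} (q h : Fin s → ℤ) : Prop := ∀ p : ℕ, p.Prime → nu q h p < p

/-- The partial product of the singular series over the primes `p ≤ z`. -/
noncomputable def sing {s : ℕ} (q h : Fin s → ℤ) (z : ℕ) : ℝ :=
  ∏ p ∈ (Icc 1 z).filter Nat.Prime, (1 - (nu q h p : ℝ) / p) / (1 - 1 / (p : ℝ)) ^ s

/-- The integers `1 ≤ n ≤ X` for which all the values `q i * n + h i` are (positive) primes. -/
def values {s : ℕ} (q h : Fin s → ℤ) (X : ℕ) : Finset ℕ :=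
  (Icc 1 X).filter (fun n : ℕ => ∀ i, (q i * (n : ℤ) + h i).toNat.Prime)

/-- The formula of Hardy and Littlewood: the singular series converges to a number `S > 0`, and the number of the
`n ≤ X` for which all the values are primes is `S X / log ^ s X`, up to a factor between `1 - ε` and `1 + ε`. -/
def Formula {s : ℕ} (ε : ℝ) (q h : Fin s → ℤ) (X : ℕ) : Prop :=
  ∃ S : ℝ, 0 < S ∧ Filter.Tendsto (sing q h) Filter.atTop (nhds S) ∧
    |((values q h X).card : ℝ) - S * (X / Real.log X ^ s)| ≤ ε * (S * (X / Real.log X ^ s))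

/-- If the system is admissible, then the formula holds for all `X` between `N / M` and `N` for which all the forms are
positive at `1` and at `X` (and so on the whole interval from `1` to `X`). -/
def Good {s : ℕ} (ε : ℝ) (M N : ℕ) (q h : Fin s → ℤ) : Prop :=
  Admissible q h → ∀ X ≤ N, N ≤ M * X → (∀ i, 0 < q i + h i ∧ 0 < q i * X + h i) → Formula ε q h X

open Classical in
/-- Let `s ≥ 1`, the slopes `q i ≠ 0`, bases `b i ≥ 2`, integers `κ i ≠ 0` (`i < s`), `B`, `M`, `U` and `ε > 0` be fixed.
Let `N` be large, let `k i` be lengths with `N / B ≤ b i ^ k i ≤ B N` and let `c i` be integers with `|c i| ≤ B N`. Then all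
the vectors `(v 1, ..., v s)` of palindromes `v i` with exactly `k i` digits in base `b i`, with the exception of a
proportion of at most `1 / log ^ U N` of these vectors, have the following property: if the system of the linear
polynomials `q i n + h i` with `h i = c i + κ i v i` is admissible, then the number of the `n ≤ X` for which all the values
are primes satisfies the formula of Hardy and Littlewood with a relative error of at most `ε`, for all `X` between `N / M`
and `N` for which the polynomials are positive on `[1, X]`. -/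
theorem result (s : ℕ) (hs : 1 ≤ s) (q : Fin s → ℤ) (hq : ∀ i, q i ≠ 0) (b : Fin s → ℕ) (hb : ∀ i, 2 ≤ b i)
    (κ : Fin s → ℤ) (hκ : ∀ i, κ i ≠ 0) (B M U : ℕ) (ε : ℝ) (hε : 0 < ε) :
    ∃ N₀ : ℕ, ∀ N, N₀ ≤ N → ∀ k : Fin s → ℕ, (∀ i, N ≤ B * b i ^ k i ∧ b i ^ k i ≤ B * N) →
      ∀ c : Fin s → ℤ, (∀ i, |c i| ≤ B * N) →
      (((Fintype.piFinset fun i => pal (b i) (k i)).filter fun v =>
        ¬ Good ε M N q (fun i => c i + κ i * v i)).card : ℝ) ≤
      ((Fintype.piFinset fun i => pal (b i) (k i)).card : ℝ) / Real.log N ^ U := by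
  obtain ⟨N₀, h⟩ := Pool.Agent.V11251.DS.pal_lin0 s hs b hb κ q hκ hq B M U ε hε
  refine ⟨N₀, fun N hN k hk c hc => ?_⟩
  have h1 := h N hN k (fun i => ⟨(hk i).2, (hk i).1⟩) c hc
  have e1 : (Fintype.piFinset fun i => pal (b i) (k i)) =
      Fintype.piFinset (fun i => Pool.Agent.TH872.Mir.Pals (b i) (k i)) := by
    congr 1
  rw [e1]
  refine le_trans (Nat.cast_le.2 (card_le_card ?_)) h1
  intro v hv
  rw [mem_filter] at hv ⊢
  refine ⟨hv.1, ?_⟩
  have h2 := hv.2
  unfold Good at h2
  push Not at h2
  obtain ⟨hadm, X, hX1, hX2, hX3, hX4⟩ := h2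
  refine ⟨X, hX1, hX2, ?_, hadm, ?_⟩
  · intro i
    have h3 := hX3 i
    exact ⟨Order.one_le_iff_pos.2 h3.1, Order.one_le_iff_pos.2 h3.2⟩
  · rintro ⟨S, g1, g2, _, g3⟩
    exact hX4 ⟨S, g1, g2, g3⟩

end Pool.Agent.Results.MP_51e72e_nt.PalindromicConstants
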